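import Pool.Agent.Lib.MP_1a91b9_nuG.Family

/-!
# Valuations above a prime number `ℓ`
-/

set_option autoImplicit false

namespace Pool.Agent.Lib.MP_1a91b9_nuT.PL

variable [CD]

open NumberField IsDedekindDomain
open Pool.Agent.Lib.MP_1a91b9_nuT.S4 Pool.Agent.Lib.MP_1a91b9_nt Pool.Agent.Lib.MP_1a91b9_nuG

universe u

/-- `A` lies above `ℓ`. -/
def Ab (ℓ : ℕ) (A : ValuationSubring ℂ) : Prop := (ℓ : ℂ)⁻¹ ∉ A

section
variable {ℓ : ℕ} {A : ValuationSubring ℂ}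

theorem Ab.comap (hA : Ab ℓ A) : Ab ℓ (A.comap (starRingEnd ℂ)) := by
  intro h
  rw [ValuationSubring.mem_comap, map_inv₀, Complex.conj_natCast] at h
  exact hA h

theorem Ab.nat (hA : Ab ℓ A) {n : ℕ} (hn : n.Coprime ℓ) : A.valuation (n : ℂ) = 1 :=
  val_coprime A hA n hn

theorem Ab.int (hA : Ab ℓ A) {n : ℤ} (hn : IsCoprime n (ℓ : ℤ)) : A.valuation (n : ℂ) = 1 := by
  have h1 : n.natAbs.Coprime ℓ := by
    have h2 := Int.isCoprime_iff_gcd_eq_one.1 hn
    rwa [Int.gcd, Int.natAbs_natCast] at h2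
  rcases Int.natAbs_eq n with h | h
  · rw [h, Int.cast_natCast]
    exact hA.nat h1
  · rw [h, Int.cast_neg, Valuation.map_neg, Int.cast_natCast]
    exact hA.nat h1


/-- the value of a real square root -/
theorem val_sqrt {x : ℝ} (hx : 0 ≤ x) (h : A.valuation (x : ℂ) = 1) :
    A.valuation ((Real.sqrt x : ℝ) : ℂ) = 1 := by
  have h3 : ((Real.sqrt x : ℝ) : ℂ) ^ 2 = (x : ℂ) := by
    rw [← Complex.ofReal_pow, Real.sq_sqrt hx]
  have h4 := congrArg A.valuation h3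
  rw [map_pow, h] at h4
  exact (pow_eq_one_iff_of_nonneg zero_le (by norm_num)).1 h4

theorem Ab.sqrt_int (hA : Ab ℓ A) {d : ℤ} (hd : IsCoprime d (ℓ : ℤ)) :
    A.valuation ((Real.sqrt |(d : ℝ)| : ℝ) : ℂ) = 1 := by
  refine val_sqrt (abs_nonneg _) ?_
  rcases abs_choice (d : ℝ) with h | h
  · rw [h, Complex.ofReal_intCast]
    exact hA.int hd
  · rw [h, Complex.ofReal_neg, Valuation.map_neg, Complex.ofReal_intCast]
    exact hA.int hd


end


end Pool.Agent.Lib.MP_1a91b9_nuT.PL
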