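import Pool.Agent.Lib.MP_1a91b9_nuT.DS.Defs

/-!
# The discriminant is prime to `ℓ`
-/

set_option autoImplicit false

namespace Pool.Agent.Lib.MP_1a91b9_nuT.PL

variable [CD]

open NumberField IsDedekindDomain WithZero DB DS

universe u

theorem not_dvd_discr {ℓ : ℕ} (hℓ : ℓ.Prime) (F : Type u) [Field F] [NumberField F]
    (hu : UnrL ℓ F) : ¬ (ℓ : ℤ) ∣ discr F := by
  have hp := Nat.prime_iff_prime_int.1 hℓ
  have hl0 : (ℓ : ℤ) ≠ 0 := hp.ne_zero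
  have hlF : (ℓ : 𝓞 F) ≠ 0 := Nat.cast_ne_zero.2 hℓ.ne_zero
  rw [not_dvd_discr_iff_forall_mem F (𝓞 F) hp]
  intro P hP hmem
  have hmem' : (ℓ : 𝓞 F) ∈ P := by
    have e : (((ℓ : ℤ)) : 𝓞 F) = (ℓ : 𝓞 F) := by push_cast; rfl
    rwa [e] at hmem
  have hbot : P ≠ ⊥ := by
    rintro rfl
    exact hlF ((Submodule.mem_bot _).1 hmem')
  have hlies : P.LiesOver (Ideal.span {(ℓ : ℤ)}) := (Ideal.liesOver_span_iff hP.ne_top hp).mpr hmem
  have hle : (Ideal.span {(ℓ : ℤ)}).map (algebraMap ℤ (𝓞 F)) ≤ P := by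
    rw [Ideal.map_le_iff_le_comap, Ideal.span_singleton_le_iff_mem, Ideal.mem_comap]
    simpa using hmem'
  rw [← Ideal.ramificationIdx_eq_one_iff,
    ← Ideal.ramificationIdx'_eq_ramificationIdx (Ideal.span {(ℓ : ℤ)}) P
      (Ideal.span_singleton_eq_bot.not.mpr hl0)]
  by_contra hne
  have h1 := (Ideal.ramificationIdx'_ne_one_iff hle).1 hne
  have h2 : (ℓ : 𝓞 F) ∈ P ^ 2 := by
    have h3 := h1 (Ideal.mem_map_of_mem (algebraMap ℤ (𝓞 F)) (Ideal.mem_span_singleton_self (ℓ : ℤ)))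
    simpa using h3
  let v : HeightOneSpectrum (𝓞 F) := ⟨P, hP, hbot⟩
  have hv1 : v.valuation F (ℓ : F) < 1 := by
    have h3 : v.valuation F (algebraMap (𝓞 F) F (ℓ : 𝓞 F)) < 1 :=
      (HeightOneSpectrum.valuation_lt_one_iff_mem (K := F) v (ℓ : 𝓞 F)).2 hmem'
    have e : algebraMap (𝓞 F) F (ℓ : 𝓞 F) = (ℓ : F) := map_natCast (algebraMap (𝓞 F) F) ℓ
    rwa [e] at h3
  have hod := hu v hv1
  have hv2 : v.valuation F (ℓ : F) ≤ exp (-(2 : ℤ)) := by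
    have h3 := (HeightOneSpectrum.intValuation_le_pow_iff_mem v (ℓ : 𝓞 F) 2).2 h2
    have h4 : v.valuation F (algebraMap (𝓞 F) F (ℓ : 𝓞 F)) = v.intValuation (ℓ : 𝓞 F) :=
      HeightOneSpectrum.valuation_of_algebraMap v _
    have e : algebraMap (𝓞 F) F (ℓ : 𝓞 F) = (ℓ : F) := map_natCast (algebraMap (𝓞 F) F) ℓ
    rw [e] at h4
    rw [h4]
    exact_mod_cast h3
  have h0 : v.valuation F (ℓ : F) ≠ 0 :=
    (Valuation.ne_zero_iff _).2 (Nat.cast_ne_zero.2 hℓ.ne_zero)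
  unfold od at hod
  have h5 : v.valuation F (ℓ : F) = exp (-(1 : ℤ)) := by
    rw [← exp_log h0]
    congr 1
    omega
  rw [h5, exp_le_exp] at hv2
  omega

theorem coprime_discr {ℓ : ℕ} (hℓ : ℓ.Prime) (N F : Type u) [Field F] [NumberField F] [Field N]
    [NumberField N] [Algebra N F] (hu : UnrL ℓ F) : IsCoprime (discr N) (ℓ : ℤ) := by
  have h1 := not_dvd_discr hℓ F hu
  have h2 : ¬ (ℓ : ℤ) ∣ discr N := fun h => h1 (h.trans (discr_dvd_discr N F))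
  rw [isCoprime_comm]
  exact (Irreducible.coprime_iff_not_dvd (Nat.prime_iff_prime_int.1 hℓ).irreducible).2 h2

end Pool.Agent.Lib.MP_1a91b9_nuT.PL
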