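import Pool.Agent.Lib.MP_1a91b9_nuT.BaseK
import Pool.Agent.Lib.MP_1a91b9_nuT.S9.Defs
import Pool.Agent.Lib.MP_1a91b9_nuT3.S9.Defs
import Pool.Agent.Lib.MP_1a91b9_nuT3.R3.Defs

/-!
# The `ℓ`-part of the conjecture of Birch and Swinnerton-Dyer: the fields `N ⊆ F`

`F` contains `K`, and `N = F` or `F = N K`.
-/

set_option autoImplicit false

namespace Pool.Agent.Lib.MP_1a91b9_nuT.PL

variable [CD]

open NumberField IsDedekindDomain WeierstrassCurve Module Pool.Agent.Lib.MP_1a91b9_nuT.S9
open Pool.Agent.Lib.MP_1a91b9_nuT3.S9 (ShaP FormulaQ)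
open scoped Classical

universe u


/-- The `ℓ`-part of the conjecture, all the terms of which are trivial at `ℓ`. -/
def Concl (ℓ : ℕ) [Fact ℓ.Prime] {N : Type u} [Field N] [NumberField N] (W : WeierstrassCurve N) :
    Prop :=
  (∀ g : ℂ → ℂ, Differentiable ℂ g → (∀ s : ℂ, 2 < s.re → g s = W.LSeries s) → FormulaQ ℓ W g) ∧
    Nat.card (ShaP ℓ W) = 1 ∧ (∀ v : HeightOneSpectrum (𝓞 N), (tam W v).Coprime ℓ) ∧
    Finite W.toAffine.Point ∧ (Nat.card W.toAffine.Point).Coprime ℓ


/-- the two coordinates of the elements of a quadratic extension -/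
theorem exists_coord {N F : Type*} [Field N] [Field F] [Algebra N F]
    (hfr : finrank N F = 2) (x : F) (hx : ∀ a : N, algebraMap N F a ≠ x) (z : F) :
    ∃ a b : N, z = algebraMap N F a + algebraMap N F b * x := by
  have hli : LinearIndependent N ![(1 : F), x] := by
    rw [LinearIndependent.pair_iff]
    intro s t hst
    have ht : t = 0 := by
      by_contra ht
      apply hx (-s / t)
      rw [map_div₀, map_neg]
      have ht' : algebraMap N F t ≠ 0 := (map_ne_zero _).2 ht
      rw [div_eq_iff ht']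
      rw [Algebra.smul_def, Algebra.smul_def, mul_one] at hst
      linear_combination -hst
    refine ⟨?_, ht⟩
    rw [ht, zero_smul, add_zero, Algebra.smul_def, mul_one] at hst
    exact (map_eq_zero _).1 hst
  have hspan := hli.span_eq_top_of_card_eq_finrank (by simp [hfr])
  have hz : z ∈ Submodule.span N (Set.range ![(1 : F), x]) := by rw [hspan]; trivial
  rw [Matrix.range_cons, Matrix.range_cons, Matrix.range_empty, Set.union_empty,
    Set.singleton_union, Submodule.mem_span_pair] at hz
  obtain ⟨a, b, hab⟩ := hz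
  refine ⟨a, b, ?_⟩
  rw [← hab, Algebra.smul_def, Algebra.smul_def, mul_one]


end Pool.Agent.Lib.MP_1a91b9_nuT.PL
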