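import Pool.Agent.Lib.MP_1a91b9_nuT.CT.Sb
import Pool.Agent.Lib.MP_1a91b9_nuT.CT.Sl
import Pool.Agent.Lib.MP_1a91b9_nuT.S9.MB
import Pool.Agent.Lib.MP_1a91b9_nuT.S9.LA
import Pool.Agent.Lib.MP_1a91b9_nuT.BaseK
import Pool.Agent.Lib.MP_1a91b9_nuT.S5.Defs
import Pool.Agent.Lib.MP_1a91b9_nuT.S5.Places
import Pool.Agent.Lib.MP_1a91b9_nuT3.S9.Defs

/-!
# The `ℓ`-primary part of the Tate-Shafarevich group: descent to a subfield

`N' = N` or `N'` is a quadratic extension of `N`, `N'` contains `K`, and `W` over `N` is isomorphic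
to `E` over `N'`.
-/

set_option autoImplicit false

namespace Pool.Agent.Lib.MP_1a91b9_nuT.PL

variable [CD]

open WeierstrassCurve NumberField IsDedekindDomain
open Pool.Agent.Lib.MP_1a91b9_nuT.S9 Pool.Agent.Lib.MP_1a91b9_nuT.S5
open Pool.Agent.Lib.MP_1a91b9_nuT.CT
open Pool.Agent.Lib.MP_1a91b9_nuT3.S9 (ShaP)
open scoped Classical

universe u

theorem algClosed_of_equiv {L : Type*} [Field L] (e : L ≃+* ℂ) : IsAlgClosed L := by
  refine IsAlgClosed.of_exists_root _ fun p _ hi => ?_
  have h1 : (p.map (e : L →+* ℂ)).degree ≠ 0 := by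
    rw [Polynomial.degree_map]
    exact (Polynomial.degree_pos_of_irreducible hi).ne'
  obtain ⟨z, hz⟩ := IsAlgClosed.exists_root _ h1
  refine ⟨e.symm z, ?_⟩
  apply e.injective
  rw [Polynomial.IsRoot.def, Polynomial.eval_map] at hz
  rw [map_zero, ← hz]
  have h2 := Polynomial.hom_eval₂ p (RingHom.id L) (e : L →+* ℂ) (e.symm z)
  rw [RingHom.comp_id] at h2
  have h3 : ((e : L →+* ℂ) (e.symm z)) = z := e.apply_symm_apply z
  rw [h3] at h2
  rw [← h2]
  rfl

/-- a cocycle is trivial over an algebraically closed field -/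
theorem triv_closed {k : Type*} [Field k] (W : WeierstrassCurve k) (L : Type*) [Field L]
    [Algebra k L] [IsAlgClosed L] (c : Gal k → Pts W (AlgebraicClosure k)) (h1 : c 1 = 0) :
    c ∈ trivOver W L := by
  intro i
  refine ⟨0, fun σ τ h => ?_⟩
  have hσ : ∀ x, σ x = x := by
    intro x
    obtain ⟨y, rfl⟩ := (IsAlgClosed.algebraMap_bijective_of_isIntegral (k := L)
      (K := AlgebraicClosure L)).2 x
    exact σ.commutes y
  have hτ : τ = 1 := by
    ext x
    apply i.injective
    change i (τ x) = i ((1 : Gal k) x)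
    rw [h x, hσ, AlgEquiv.one_apply]
  rw [hτ, h1, _root_.map_zero, _root_.map_zero, sub_zero]

/-- the infinite places of an extension of `K` are complex -/
theorem isComplex_of_K {F : Type*} [Field F] [Algebra K F] (v : InfinitePlace F) :
    v.IsComplex := by
  rw [← InfinitePlace.not_isReal_iff_isComplex]
  intro h
  have h1 : (algebraMap K F om) ^ 2 = (CD.tr : F) * algebraMap K F om - (CD.nm : F) := by
    have h2 := congrArg (algebraMap K F) om_quad
    rwa [map_pow, map_sub, map_mul, map_intCast, map_intCast] at h2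
  have h3 := congrArg (InfinitePlace.embedding_of_isReal h) h1
  rw [map_pow, map_sub, map_mul, map_intCast, map_intCast] at h3
  have h4 : ((CD.tr ^ 2 : ℤ) : ℝ) < ((4 * CD.nm : ℤ) : ℝ) := Int.cast_lt.2 disc_neg
  push_cast at h4
  nlinarith [sq_nonneg (2 * InfinitePlace.embedding_of_isReal h (algebraMap K F om) -
    (CD.tr : ℝ))]

theorem triv_inf {F : Type u} [Field F] [NumberField F] [Algebra K F] (W : WeierstrassCurve F)
    (c : Gal F → Pts W (AlgebraicClosure F)) (h1 : c 1 = 0) (v : InfinitePlace F) :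
    c ∈ trivOver W v.Completion := by
  have hc := isComplex_of_K v
  have : IsAlgClosed v.Completion :=
    algClosed_of_equiv (InfinitePlace.Completion.ringEquivComplexOfIsComplex hc)
  exact triv_closed W v.Completion c h1

theorem coc_one {k : Type*} [Field k] (W : WeierstrassCurve k)
    (c : Gal k → Pts W (AlgebraicClosure k)) (hc : c ∈ coc W) : c 1 = 0 := by
  have h := hc.2 1 1
  rw [mul_one] at h
  have h2 : Affine.Point.map ((1 : Gal k) : AlgebraicClosure k →ₐ[k] AlgebraicClosure k) (c 1) =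
      c 1 := by
    rcases c 1 with _ | ⟨x, y, h⟩ <;> rfl
  rw [h2] at h
  exact left_eq_add.1 h

variable {N N' : Type u} [Field N] [NumberField N] [Field N'] [NumberField N'] [Algebra N N']


end Pool.Agent.Lib.MP_1a91b9_nuT.PL
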